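import Mathlib
import Pool.Agent.P8H19.TO.Cnt

set_option autoImplicit false

/-!
# The parity of the coefficients of `T_o(q)`

`T_o(q) = ∑_m q^(2m) (-q;q)_(2m) / (q;q^2)_(m+1) = ∑ t_o(n) q^n`. Modulo `2` the number `t_o(n)` is
the number of representations `8 n + 9 = a^2 + 2 b^2` with `0 < a < 2 b`; in particular it is even
if `8 n + 9` is not represented by `x^2 + 2 y^2`.

Proof. Modulo `2` the series `q T_o(q)` is congruent to `∑_m (-1)^m (-Q;Q)_m q^(2m+1) / (1 - q^(2m+1))`,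
`Q = q^2`. For the latter the exact identity
`∑_m (-1)^m (-Q;Q)_m q^(2m+1) / (1 - q^(2m+1)) = ∑_(j ≥ 1) q^(j^2) ∑_(n < 2j) q^(n(n+1)/2)`
holds. It follows from a Bailey pair: `q Q^m / ((Q;Q)_m (1 - q Q^m))` is a combination of the
`q^(j^2) ∑_(n < 2j) q^(n(n+1)/2)`, `j ≤ m + 1` (proved by a recurrence in `m` with two telescoping
certificates), and from a case of the `q`-Gauss sum (proved by telescoping in `j`). Finally
`8 (j^2 + n(n+1)/2) + 1 = (2n+1)^2 + 2 (2j)^2`.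
-/

namespace Pool.Agent.Results.MP_0c59fa_nt.ParityFormula

open Pool.Agent.P8H19.TO

/-- **Parity of `t_o(n)`.** `tO n` is the coefficient of `q^n` in `T_o(q)`. It is congruent modulo `2`
to the number of pairs `(a, b)` of natural numbers with `a^2 + 2 b^2 = 8 n + 9` and `a < 2 b`; hence
it is even when `8 n + 9` is not of the form `x^2 + 2 y^2`. -/
theorem result (n : ℕ) :
    (tO n ≡ (Set.ncard {x : ℕ × ℕ | x.1 ^ 2 + 2 * x.2 ^ 2 = 8 * n + 9 ∧ x.1 < 2 * x.2} : ℤ)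
      [ZMOD 2]) ∧
    ((¬ ∃ x y : ℤ, x ^ 2 + 2 * y ^ 2 = 8 * n + 9) → tO n ≡ 0 [ZMOD 2]) := by
  have h1 : tO n ≡ (Set.ncard {x : ℕ × ℕ | x.1 ^ 2 + 2 * x.2 ^ 2 = 8 * n + 9 ∧ x.1 < 2 * x.2} : ℤ)
      [ZMOD 2] := by
    apply (ZMod.intCast_eq_intCast_iff _ _ 2).1
    rw [tO_reps, Int.cast_natCast]
    rfl
  refine ⟨h1, fun h => ?_⟩
  have h2 : {x : ℕ × ℕ | x.1 ^ 2 + 2 * x.2 ^ 2 = 8 * n + 9 ∧ x.1 < 2 * x.2} = ∅ := by
    rw [Set.eq_empty_iff_forall_notMem]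
    rintro ⟨a, b⟩ ⟨hx, _⟩
    apply h
    refine ⟨a, b, ?_⟩
    dsimp only at hx
    exact_mod_cast hx
  rw [h2, Set.ncard_empty] at h1
  exact_mod_cast h1

end Pool.Agent.Results.MP_0c59fa_nt.ParityFormula
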